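import Mathlib

set_option autoImplicit false

namespace Pool.Agent.Results.MP_8e2e71_co.Formula

open Finset

/-- The bishops graph of the `k × n` board. -/
def bishops (k n : ℕ) : SimpleGraph (Fin k × Fin n) where
  Adj p q := p ≠ q ∧ |(p.1.1 : ℤ) - q.1.1| = |(p.2.1 : ℤ) - q.2.1|
  symm := ⟨fun _ _ h => ⟨h.1.symm, by rw [abs_sub_comm, h.2, abs_sub_comm]⟩⟩
  loopless := ⟨fun _ h => h.1 rfl⟩

/-- The domination number. -/
noncomputable def gamma {V : Type} (G : SimpleGraph V) : ℕ :=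
  sInf {m | ∃ D : Finset V, D.card = m ∧ ∀ v ∉ D, ∃ u ∈ D, G.Adj v u}

theorem cnt (x p : ℕ) (hp : p < 2) : #{y ∈ range x | y % 2 = p} = (x + 1 - p) / 2 := by
  induction x with
  | zero => simp; omega
  | succ x ih =>
    rw [range_add_one, filter_insert]
    split_ifs with h
    · rw [card_insert_of_notMem (by simp), ih]; omega
    · omega

theorem cnt_le {S : Finset ℕ} {x p : ℕ} (h : ∀ y ∈ S, y < x ∧ y % 2 = p) (hp : p < 2) :
    #S ≤ (x + 1 - p) / 2 :=
  cnt x p hp ▸ card_le_card fun y hy => by simpa using h y hy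

theorem corner {K p q : ℕ} {P Q : Finset ℕ} (hp : p < 2) (hq : q < 2) (hK : (p + q) % 2 = K % 2)
    (hP : ∀ d ∈ P, d < K ∧ d % 2 = p) (hQ : ∀ a ∈ Q, a < K ∧ a % 2 = q)
    (h : ∀ d ∈ P, ∀ a ∈ Q, d + a < K) : 2 * (#P + #Q) + p + q ≤ K + 2 := by
  rcases P.eq_empty_or_nonempty with rfl | hne
  · have := cnt_le hQ hq
    simp only [card_empty]
    omega
  · have h1 := hP _ (P.max'_mem hne)
    have h2 := cnt_le (S := P) (x := P.max' hne + 1)
      (fun y hy => ⟨Nat.lt_succ_of_le (P.le_max' y hy), (hP y hy).2⟩) hp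
    have h3 := cnt_le (S := Q) (x := K - P.max' hne)
      (fun y hy => ⟨by have := h _ (P.max'_mem hne) y hy; omega, (hQ y hy).2⟩) hq
    omega

theorem tokens {K : ℕ} {B : Finset (ℕ × ℕ)} {X Y : Finset ℕ}
    (hB : ∀ b ∈ B, b.1 ≤ b.2 + K ∧ b.2 ≤ b.1 + K) (hX : ∀ x ∈ X, x ∈ B.image Prod.fst)
    (hY : ∀ y ∈ Y, y ∈ B.image Prod.snd) (h : ∀ x ∈ X, ∀ y ∈ Y, y + K < x ∨ x + K < y) :
    #X + #Y ≤ #B := by
  have h1 : #X ≤ #{b ∈ B | b.1 ∈ X} := (card_le_card fun x hx => by
    obtain ⟨b, hb, rfl⟩ := mem_image.mp (hX x hx)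
    exact mem_image_of_mem _ (mem_filter.mpr ⟨hb, hx⟩)).trans (card_image_le (f := Prod.fst))
  have h2 : #Y ≤ #{b ∈ B | b.1 ∉ X} := (card_le_card fun y hy => by
    obtain ⟨b, hb, rfl⟩ := mem_image.mp (hY y hy)
    refine mem_image_of_mem _ (mem_filter.mpr ⟨hb, fun hx => ?_⟩)
    have := h _ hx _ hy
    have := hB b hb
    omega).trans (card_image_le (f := Prod.snd))
  have := card_filter_add_card_filter_not (s := B) (fun b => b.1 ∈ X)
  omega

/-- all squares of one colour are dominated -/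
def Dom (K T p : ℕ) (B : Finset (ℕ × ℕ)) : Prop :=
  ∀ d a, d % 2 = p → (d + a) % 2 = K % 2 → d ≤ a + K → a ≤ d + K → K ≤ d + a →
    d + a + K ≤ 2 * T → d ∈ B.image Prod.fst ∨ a ∈ B.image Prod.snd

theorem core {K T p : ℕ} {B : Finset (ℕ × ℕ)} {P Q : Finset ℕ}
    (hB : ∀ b ∈ B, b.1 ≤ b.2 + K ∧ b.2 ≤ b.1 + K) (hD : Dom K T p B)
    (hP : ∀ d ∈ P, K ≤ d ∧ d + K ≤ T ∧ d % 2 = p ∧ d ∉ B.image Prod.fst)
    (hQ : ∀ a ∈ Q, K ≤ a ∧ a + K ≤ T ∧ (a + K) % 2 = p ∧ a ∉ B.image Prod.snd)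
    {c : ℕ} (hc : c ∈ P) : #P + #Q + K ≤ #B := by
  let s : ℕ → ℕ := fun x => if x < c then x - K else x + K
  have hs : ∀ x, K ≤ x → (x < c ∧ s x + K = x) ∨ (c ≤ x ∧ s x = x + K) := fun x hx => by
    simp only [s]
    split_ifs <;> omega
  have far : ∀ d ∈ P, ∀ a ∈ Q, a + K < d ∨ d + K < a := fun d hd a ha => by
    have h1 := hP d hd
    have h2 := hQ a ha
    by_contra hn
    rcases hD d a h1.2.2.1 (by omega) (by omega) (by omega) (by omega) (by omega) with h | h
    · exact h1.2.2.2 h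
    · exact h2.2.2.2 h
  have hc' := hP c hc
  have key := tokens (X := Q.image s) (Y := P.image s ∪ (range K).image fun e => c - K + 2 * e) hB
    (fun x hx => by
      obtain ⟨a, ha, rfl⟩ := mem_image.mp hx
      have h1 := hQ a ha
      have h2 := hs a h1.1
      exact (hD (s a) a (by omega) (by omega) (by omega) (by omega) (by omega)
        (by omega)).resolve_right h1.2.2.2)
    (fun y hy => by
      rcases mem_union.mp hy with hy | hy
      · obtain ⟨d, hd, rfl⟩ := mem_image.mp hy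
        have h1 := hP d hd
        have h2 := hs d h1.1
        exact (hD d (s d) (by omega) (by omega) (by omega) (by omega) (by omega)
          (by omega)).resolve_left h1.2.2.2
      · obtain ⟨e, he, rfl⟩ := mem_image.mp hy
        have := mem_range.mp he
        exact (hD c _ (by omega) (by omega) (by omega) (by omega) (by omega)
          (by omega)).resolve_left hc'.2.2.2)
    (fun x hx y hy => by
      obtain ⟨a, ha, rfl⟩ := mem_image.mp hx
      have h1 := hs a (hQ a ha).1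
      have h2 := far c hc a ha
      rcases mem_union.mp hy with hy | hy
      · obtain ⟨d, hd, rfl⟩ := mem_image.mp hy
        have h3 := hs d (hP d hd).1
        have h4 := far d hd a ha
        omega
      · obtain ⟨e, he, rfl⟩ := mem_image.mp hy
        have := mem_range.mp he
        omega)
  rw [card_union_of_disjoint, card_image_of_injOn, card_image_of_injOn, card_image_of_injOn,
    card_range] at key
  · omega
  · intro x _ y _ h
    simp only at h
    omega
  · intro x hx y hy h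
    have h1 := hs x (hP x hx).1
    have h2 := hs y (hP y hy).1
    omega
  · intro x hx y hy h
    have h1 := hs x (hQ x hx).1
    have h2 := hs y (hQ y hy).1
    omega
  · refine disjoint_left.mpr fun y h1 h2 => ?_
    obtain ⟨d, hd, rfl⟩ := mem_image.mp h1
    obtain ⟨e, he, h⟩ := mem_image.mp h2
    have := mem_range.mp he
    have h3 := hs d (hP d hd).1
    omega

theorem split3 (K T : ℕ) (P : Finset ℕ) (hP : ∀ x ∈ P, x ≤ T) :
    #P ≤ #{x ∈ P | x < K} + #{x ∈ P | K ≤ x ∧ x + K ≤ T} +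
      #({x ∈ P | T < x + K}.image (T - ·)) := by
  rw [card_image_of_injOn fun x hx y hy h => by
    have h1 := hP x (mem_filter.mp hx).1
    have h2 := hP y (mem_filter.mp hy).1
    omega]
  refine (card_le_card fun x hx => ?_).trans ((card_union_le _ _).trans
    (Nat.add_le_add_right (card_union_le _ _) _))
  simp only [mem_union, mem_filter, hx, true_and]
  omega

theorem arith {T K p q x y l l' : ℕ} (hp : p < 2) (hq : q = (p + K) % 2)
    (h1 : (T + 2 - p) / 2 ≤ x) (h2 : (T + 2 - q) / 2 ≤ y) (c1 : 2 * l + p + q ≤ K + 2)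
    (c2 : 2 * l' + (T + p) % 2 + (T + q) % 2 ≤ K + 2) : T + l + l' ≤ x + y + K := by
  obtain rfl | rfl : p = 0 ∨ p = 1 := by omega
  all_goals
    rcases Nat.even_or_odd' K with ⟨K, rfl | rfl⟩ <;> rcases Nat.even_or_odd' T with ⟨T, rfl | rfl⟩
    all_goals omega

theorem lower {K T p : ℕ} {B : Finset (ℕ × ℕ)} (hp : p < 2) (hT : 3 * K ≤ T)
    (hB : ∀ b ∈ B, b.1 ≤ b.2 + K ∧ b.2 ≤ b.1 + K) (hD : Dom K T p B) : T ≤ 3 * #B := by
  obtain ⟨q, hq⟩ : ∃ q, q = (p + K) % 2 := ⟨_, rfl⟩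
  have unc : ∀ (r : ℕ) (C : Finset ℕ), r < 2 →
      (T + 2 - r) / 2 ≤ #{x ∈ range (T + 1) | x % 2 = r ∧ x ∉ C} + #C := fun r C hr => by
    rw [← cnt (T + 1) r hr]
    refine (card_le_card fun x hx => ?_).trans (card_union_le _ _)
    simp only [mem_union, mem_filter] at hx ⊢
    tauto
  have u1 := unc p (B.image Prod.fst) hp
  have u2 := unc q (B.image Prod.snd) (by omega)
  have i1 := card_image_le (s := B) (f := Prod.fst)
  have i2 := card_image_le (s := B) (f := Prod.snd)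
  generalize hP : ({x ∈ range (T + 1) | x % 2 = p ∧ x ∉ B.image Prod.fst} : Finset ℕ) = P at u1
  generalize hQ : ({x ∈ range (T + 1) | x % 2 = q ∧ x ∉ B.image Prod.snd} : Finset ℕ) = Q at u2
  have mP : ∀ x ∈ P, x ≤ T ∧ x % 2 = p ∧ x ∉ B.image Prod.fst := fun x hx => by
    rw [← hP, mem_filter, mem_range, Nat.lt_succ_iff] at hx
    exact hx
  have mQ : ∀ x ∈ Q, x ≤ T ∧ x % 2 = q ∧ x ∉ B.image Prod.snd := fun x hx => by
    rw [← hQ, mem_filter, mem_range, Nat.lt_succ_iff] at hx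
    exact hx
  have far : ∀ d ∈ P, ∀ a ∈ Q, a + K < d ∨ d + K < a ∨ d + a < K ∨ 2 * T < d + a + K :=
    fun d hd a ha => by
      have h1 := mP d hd
      have h2 := mQ a ha
      by_contra hn
      rcases hD d a h1.2.1 (by omega) (by omega) (by omega) (by omega) (by omega) with h | h
      · exact h1.2.2 h
      · exact h2.2.2 h
  have s1 := split3 K T P fun x hx => (mP x hx).1
  have s2 := split3 K T Q fun x hx => (mQ x hx).1
  have c1 := corner (K := K) (q := q) (P := {x ∈ P | x < K}) (Q := {x ∈ Q | x < K}) hp (by omega)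
    (by omega) (fun d hd => ⟨(mem_filter.mp hd).2, (mP d (mem_filter.mp hd).1).2.1⟩)
    (fun d hd => ⟨(mem_filter.mp hd).2, (mQ d (mem_filter.mp hd).1).2.1⟩) fun d hd a ha => by
      rw [mem_filter] at hd ha
      have := far d hd.1 a ha.1
      omega
  have c2 := corner (K := K) (p := (T + p) % 2) (q := (T + q) % 2)
    (P := {x ∈ P | T < x + K}.image (T - ·)) (Q := {x ∈ Q | T < x + K}.image (T - ·))
    (by omega) (by omega) (by omega)
    (fun d hd => by
      obtain ⟨x, hx, rfl⟩ := mem_image.mp hd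
      rw [mem_filter] at hx
      have := mP x hx.1
      omega)
    (fun d hd => by
      obtain ⟨x, hx, rfl⟩ := mem_image.mp hd
      rw [mem_filter] at hx
      have := mQ x hx.1
      omega)
    fun d hd a ha => by
      obtain ⟨x, hx, rfl⟩ := mem_image.mp hd
      obtain ⟨y, hy, rfl⟩ := mem_image.mp ha
      rw [mem_filter] at hx hy
      have := far x hx.1 y hy.1
      have := mP x hx.1
      have := mQ y hy.1
      omega
  have m1 : ∀ d ∈ ({x ∈ P | K ≤ x ∧ x + K ≤ T} : Finset ℕ),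
      K ≤ d ∧ d + K ≤ T ∧ d % 2 = p ∧ d ∉ B.image Prod.fst := fun d hd => by
    rw [mem_filter] at hd
    exact ⟨hd.2.1, hd.2.2, (mP d hd.1).2⟩
  have m2 : ∀ d ∈ ({x ∈ Q | K ≤ x ∧ x + K ≤ T} : Finset ℕ),
      K ≤ d ∧ d + K ≤ T ∧ d % 2 = q ∧ d ∉ B.image Prod.snd := fun d hd => by
    rw [mem_filter] at hd
    exact ⟨hd.2.1, hd.2.2, (mQ d hd.1).2⟩
  generalize ({x ∈ P | K ≤ x ∧ x + K ≤ T} : Finset ℕ) = P' at s1 m1
  generalize ({x ∈ Q | K ≤ x ∧ x + K ≤ T} : Finset ℕ) = Q' at s2 m2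
  have ar := arith hp hq u1 u2 c1 c2
  clear u1 u2 c1 c2
  rcases P'.eq_empty_or_nonempty with rfl | ⟨c, hc⟩
  · rcases Q'.eq_empty_or_nonempty with rfl | ⟨c, hc⟩
    · simp only [card_empty] at s1 s2
      omega
    · have e1 : (B.image Prod.swap).image Prod.fst = B.image Prod.snd := by rw [image_image]; rfl
      have e2 : (B.image Prod.swap).image Prod.snd = B.image Prod.fst := by rw [image_image]; rfl
      have := core (K := K) (T := T) (p := q) (B := B.image Prod.swap) (Q := ∅)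
        (fun b hb => by
          obtain ⟨b', hb', rfl⟩ := mem_image.mp hb
          exact (hB b' hb').symm)
        (fun d a h1 h2 h3 h4 h5 h6 => by
          rw [e1, e2]
          exact (hD a d (by omega) (by omega) h4 h3 (by omega) (by omega)).symm)
        (e1 ▸ m2) (by simp) hc
      have := card_image_le (s := B) (f := Prod.swap)
      simp only [card_empty] at *
      omega
  · have := core hB hD m1 (fun a ha => by
      have := m2 a ha
      exact ⟨this.1, this.2.1, by omega, this.2.2.2⟩) hc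
    omega

theorem upper {K s c : ℕ} (hK : 1 ≤ K) (hs : K + 1 ≤ s) (hc : c < 2) :
    ∃ B : Finset (ℕ × ℕ), #B ≤ s ∧ (∀ b ∈ B, b.1 ≤ K ∧ 1 ≤ b.2 ∧ b.2 + K + 1 ≤ 3 * s) ∧
      ∀ i j, i ≤ K → j + K ≤ 3 * s → (i + j) % 2 = c →
        ∃ b ∈ B, b.1 + j = b.2 + i ∨ b.1 + b.2 = i + j := by
  obtain ⟨r, hr⟩ : ∃ r, r + c = 1 := ⟨1 - c, by omega⟩
  obtain ⟨q, r', hq, hr'⟩ : ∃ q r', K * q + r' + K + r = s ∧ r' < K :=
    ⟨(s - K - r) / K, (s - K - r) % K, by have := Nat.div_add_mod (s - K - r) K; omega,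
      Nat.mod_lt _ hK⟩
  let w : ℕ → ℕ → ℕ := fun t h => if t % 2 = 0 then h else K - h
  have hw : ∀ t h, (t % 2 = 0 ∧ w t h = h ∧ K * t % 2 = 0) ∨
      (t % 2 = 1 ∧ w t h = K - h ∧ K * t % 2 = K % 2) := fun t h => by
    rcases Nat.mod_two_eq_zero_or_one t with e | e <;> simp [w, e, Nat.mul_mod]
  refine ⟨((range r).image (fun _ => (1, 1)) ∪ (range (q + 1) ×ˢ range K).image
    (fun x => (w x.1 0, 3 * r + 1 + 3 * (K * x.1) + 2 * x.2))) ∪ (range r').image
    (fun e => (w q r', 3 * r + 1 + 3 * (K * q) + 2 * K + r' + 2 * e)), ?_, ?_, ?_⟩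
  · refine (card_union_le _ _).trans ((Nat.add_le_add ((card_union_le _ _).trans
      (Nat.add_le_add card_image_le card_image_le)) card_image_le).trans ?_)
    simp only [card_range, card_product, Nat.add_mul, Nat.mul_comm q K]
    omega
  · simp only [mem_union, mem_image, mem_product, mem_range]
    rintro b ((⟨e, he, rfl⟩ | ⟨⟨t, e⟩, ⟨ht, he⟩, rfl⟩) | ⟨e, he, rfl⟩)
    · simp only
      omega
    · have := hw t 0
      have := Nat.mul_le_mul_left K (Nat.lt_succ_iff.mp ht)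
      simp only at *
      omega
    · have := hw q r'
      simp only
      omega
  · intro i j hi hj hij
    have run : ∀ t e, t ≤ q → e < K → (w t 0 + j = 3 * r + 1 + 3 * (K * t) + 2 * e + i ∨
        w t 0 + (3 * r + 1 + 3 * (K * t) + 2 * e) = i + j) → _ := fun t e ht he h =>
      (⟨_, mem_union_left _ (mem_union_right _ (mem_image.mpr ⟨(t, e), mem_product.mpr
        ⟨mem_range.mpr (Nat.lt_succ_of_le ht), mem_range.mpr he⟩, rfl⟩)), h⟩ :
        ∃ b ∈ ((range r).image (fun _ => (1, 1)) ∪ (range (q + 1) ×ˢ range K).image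
    (fun x => (w x.1 0, 3 * r + 1 + 3 * (K * x.1) + 2 * x.2))) ∪ (range r').image
    (fun e => (w q r', 3 * r + 1 + 3 * (K * q) + 2 * K + r' + 2 * e)),
          b.1 + j = b.2 + i ∨ b.1 + b.2 = i + j)
    by_cases h0 : j < 3 * r + 1
    · by_cases h1 : i + j < 3 * r + 1
      · refine ⟨(1, 1), mem_union_left _ (mem_union_left _ (mem_image.mpr
          ⟨0, mem_range.mpr (by omega), rfl⟩)), ?_⟩
        simp only
        omega
      · exact run 0 ((i + j - (3 * r + 1)) / 2) (by omega) (by omega) (by simp [w]; omega)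
    obtain ⟨t, y, ht, rfl, hy⟩ : ∃ t y, t ≤ q ∧ j = 3 * r + 1 + 3 * (K * t) + y ∧
        (t < q → y < 3 * K) := by
      by_cases h : j < 3 * r + 1 + 3 * (K * q)
      · have h1 := Nat.div_add_mod (j - (3 * r + 1)) (3 * K)
        refine ⟨(j - (3 * r + 1)) / (3 * K), (j - (3 * r + 1)) % (3 * K), ?_, ?_,
          fun _ => Nat.mod_lt _ (by omega)⟩
        · exact Nat.div_le_of_le_mul (by rw [Nat.mul_assoc]; omega)
        · rw [Nat.mul_assoc] at h1
          omega
      · exact ⟨q, j - (3 * r + 1 + 3 * (K * q)), le_rfl, by omega, fun h => absurd h (lt_irrefl _)⟩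
    obtain ⟨h, hh, hp, e0, e1⟩ : ∃ h, h ≤ K ∧ (h + y) % 2 = 0 ∧ (t % 2 = 0 → i = h) ∧
        (t % 2 = 1 → i + h = K) := ⟨w t i, by have := hw t i; omega⟩
    have a0 := hw t 0
    by_cases h1 : y < h
    · exact run t ((y + h) / 2) ht (by omega) (by omega)
    by_cases h2 : y < h + 2 * K
    · exact run t ((y - h) / 2) ht (by omega) (by omega)
    rcases ht.lt_or_eq with h3 | rfl
    · have a1 := hw (t + 1) 0
      have := hy h3
      exact run (t + 1) ((y - h - 2 * K) / 2) h3 (by omega) (by rw [Nat.mul_add] at *; omega)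
    · have a1 := hw t r'
      by_cases h3 : y < h + 2 * K + 2 * r'
      · refine ⟨_, mem_union_right _ (mem_image.mpr
          ⟨(y - h - 2 * K) / 2, mem_range.mpr (by omega), rfl⟩), ?_⟩
        simp only
        omega
      · refine ⟨_, mem_union_right _ (mem_image.mpr
          ⟨(y + h - 2 * K - 2 * r') / 2, mem_range.mpr (by omega), rfl⟩), ?_⟩
        simp only
        omega

theorem result (k n : ℕ) (h1 : 2 < 2 * k) (h2 : 2 * k < n) :
    gamma (bishops k n) = 2 * ((k + n) / 3) := by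
  obtain ⟨K, rfl⟩ : ∃ K, k = K + 1 := ⟨k - 1, by omega⟩
  obtain ⟨s, hs⟩ : ∃ s, s = (K + 1 + n) / 3 := ⟨_, rfl⟩
  obtain ⟨δ, hδ⟩ : ∃ δ, δ = (3 * s + 2 - K - n) / 2 := ⟨_, rfl⟩
  obtain ⟨B, b1, b2, b3⟩ := upper (K := K) (s := s) (c := 0) (by omega) (by omega) (by omega)
  obtain ⟨B', b1', b2', b3'⟩ := upper (K := K) (s := s) (c := 1) (by omega) (by omega) (by omega)
  let D : Finset (Fin (K + 1) × Fin n) := {v | (v.1.1, v.2.1 + δ) ∈ B ∪ B'}
  have hD : ∀ v ∉ D, ∃ u ∈ D, (bishops (K + 1) n).Adj v u := by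
    rintro ⟨i, j⟩ hv
    obtain ⟨b, hb, h3, h4⟩ : ∃ b ∈ B ∪ B', (b.1 ≤ K ∧ 1 ≤ b.2 ∧ b.2 + K + 1 ≤ 3 * s) ∧
        (b.1 + (j + δ) = b.2 + i ∨ b.1 + b.2 = i + (j + δ)) := by
      rcases Nat.mod_two_eq_zero_or_one (i + (j + δ)) with e | e
      · obtain ⟨b, hb, h⟩ := b3 i (j + δ) (by omega) (by omega) e
        exact ⟨b, mem_union_left _ hb, b2 b hb, h⟩
      · obtain ⟨b, hb, h⟩ := b3' i (j + δ) (by omega) (by omega) e
        exact ⟨b, mem_union_right _ hb, b2' b hb, h⟩
    have hm : ((⟨b.1, by omega⟩, ⟨b.2 - δ, by omega⟩) : Fin (K + 1) × Fin n) ∈ D := by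
      simp only [D, mem_filter, mem_univ, true_and]
      rwa [Nat.sub_add_cancel (by omega)]
    refine ⟨_, hm, fun e => hv (e ▸ hm), ?_⟩
    simp only [abs_eq_abs]
    omega
  rw [← hs]
  unfold gamma
  refine le_antisymm (le_trans (b := #D) (Nat.sInf_le ⟨D, rfl, hD⟩) ?_)
    (le_csInf ⟨_, D, rfl, hD⟩ ?_)
  · have h3 : #D ≤ #(B ∪ B') := card_le_card_of_injOn (fun v => (v.1.1, v.2.1 + δ))
      (fun v hv => (mem_filter.mp hv).2) fun u _ v _ h => by
        simp only [Prod.mk.injEq] at h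
        exact Prod.ext (Fin.ext h.1) (Fin.ext (by omega))
    have := card_union_le B B'
    omega
  · rintro _ ⟨D, rfl, hD⟩
    have key : ∀ p < 2, n + K - 1 ≤ 3 * #{v ∈ D | (v.2.1 + K - v.1.1) % 2 = p} := fun p hp => by
      refine (lower (K := K) (B := ({v ∈ D | (v.2.1 + K - v.1.1) % 2 = p} : Finset _).image
        fun v => (v.2.1 + K - v.1.1, v.1.1 + v.2.1)) hp (by omega) (fun b hb => ?_)
        fun d a e1 e2 e3 e4 e5 e6 => ?_).trans (Nat.mul_le_mul_left _ card_image_le)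
      · obtain ⟨⟨i, j⟩, -, rfl⟩ := mem_image.mp hb
        simp only
        omega
      · obtain ⟨i, j, hi, hj⟩ : ∃ (i : Fin (K + 1)) (j : Fin n), j + K = d + i ∧ i.1 + j = a :=
          ⟨⟨(a + K - d) / 2, by omega⟩, ⟨(a + d - K) / 2, by omega⟩, by simp only; omega⟩
        obtain ⟨⟨i', j'⟩, hu, h⟩ : ∃ u ∈ D, |(i.1 : ℤ) - u.1.1| = |(j.1 : ℤ) - u.2.1| := by
          by_cases hv : (i, j) ∈ D
          · exact ⟨_, hv, by simp⟩
          · obtain ⟨u, hu, h⟩ := hD _ hv
            exact ⟨u, hu, h.2⟩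
        simp only [abs_eq_abs] at h
        have hm : (i', j') ∈ ({v ∈ D | (v.2.1 + K - v.1.1) % 2 = p} : Finset _) :=
          mem_filter.mpr ⟨hu, by simp only; omega⟩
        rw [image_image, image_image]
        rcases h with h | h
        · exact Or.inl (mem_image.mpr ⟨_, hm, by simp only [Function.comp]; omega⟩)
        · exact Or.inr (mem_image.mpr ⟨_, hm, by simp only [Function.comp]; omega⟩)
    have k0 := key 0 (by omega)
    have k1 := key 1 (by omega)
    have := card_filter_add_card_filter_not (s := D) fun v => (v.2.1 + K - v.1.1) % 2 = 0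
    simp only [Nat.mod_two_ne_zero] at this
    omega

end Pool.Agent.Results.MP_8e2e71_co.Formula
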